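import Mathlib

set_option autoImplicit false

namespace Pool.Agent.Results.MP_47dce7_gt.RealcompactRemainderSHD

open Filter Topology Set

universe u v

/-- `X` is realcompact: it is homeomorphic to a closed subspace of a power `κ → ℝ` of the line. -/
def IsRealcompact (X : Type u) [TopologicalSpace X] : Prop :=
  ∃ (κ : Type v) (e : X → (κ → ℝ)), IsClosedEmbedding e

/-- The remainder `X* = βX \ X`, a subspace of the Stone-Cech compactification. -/
abbrev Remainder (X : Type u) [TopologicalSpace X] : Type u :=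
  {p : StoneCech X // p ∉ range (stoneCechUnit : X → StoneCech X)}

/-- Selectively highly divergent spaces. -/
def IsSHD (Y : Type u) [TopologicalSpace Y] : Prop :=
  ∀ U : ℕ → Set Y, (∀ n, IsOpen (U n)) → (∀ n, (U n).Nonempty) →
    ∃ x : ℕ → Y, (∀ n, x n ∈ U n) ∧
      ∀ φ : ℕ → ℕ, StrictMono φ → ¬ ∃ y : Y, Tendsto (fun n => x (φ n)) atTop (𝓝 y)

variable {X : Type u} [TopologicalSpace X]

lemma comap_unit_neBot (q : StoneCech X) :
    (comap (stoneCechUnit : X → StoneCech X) (𝓝 q)).NeBot := by
  apply comap_neBot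
  intro s hs
  obtain ⟨y, hy⟩ := (denseRange_stoneCechUnit (α := X)).exists_mem_open isOpen_interior
    ⟨q, mem_interior_iff_mem_nhds.mpr hs⟩
  exact ⟨y, interior_subset hy⟩

/-- A point of the remainder of a realcompact space is a zero of a continuous function
that is positive on `X`. -/
lemma exists_pos_function (hX : IsRealcompact.{u, v} X) (p : StoneCech X)
    (hp : p ∉ range (stoneCechUnit : X → StoneCech X)) :
    ∃ h : StoneCech X → ℝ, Continuous h ∧ (∀ q, 0 ≤ h q) ∧ h p = 0 ∧
      ∀ x : X, 0 < h (stoneCechUnit x) := by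
  obtain ⟨κ, e, he⟩ := hX
  -- the bounded functions
  let g : κ → X → Icc (0:ℝ) 1 := fun i x => ⟨1 / (1 + |e x i|), by
    constructor
    · positivity
    · rw [div_le_one (by positivity)]
      linarith [abs_nonneg (e x i)]⟩
  have hg : ∀ i, Continuous (g i) := by
    intro i
    apply Continuous.subtype_mk
    have h1 : Continuous fun x => e x i := (continuous_apply i).comp he.continuous
    exact continuous_const.div (continuous_const.add h1.abs) (fun x => by positivity)
  let G : κ → StoneCech X → Icc (0:ℝ) 1 := fun i => stoneCechExtend (hg i)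
  have hG : ∀ i, Continuous (G i) := fun i => continuous_stoneCechExtend (hg i)
  have hGu : ∀ i x, G i (stoneCechUnit x) = g i x := fun i x => stoneCechExtend_stoneCechUnit (hg i) x
  by_cases hzero : ∃ i, (G i p : ℝ) = 0
  · obtain ⟨i, hi⟩ := hzero
    refine ⟨fun q => G i q, continuous_subtype_val.comp (hG i), fun q => (G i q).2.1, hi, ?_⟩
    intro x
    change 0 < ((G i (stoneCechUnit x) : Icc (0:ℝ) 1) : ℝ)
    rw [hGu]
    change 0 < 1 / (1 + |e x i|)
    positivity
  · exfalso
    push Not at hzero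
    have hne : (comap (stoneCechUnit : X → StoneCech X) (𝓝 p)).NeBot :=
      comap_unit_neBot p
    let 𝒰 : Ultrafilter X := Ultrafilter.of (comap (stoneCechUnit : X → StoneCech X) (𝓝 p))
    have h𝒰 : (𝒰 : Filter X) ≤ comap (stoneCechUnit : X → StoneCech X) (𝓝 p) :=
      Ultrafilter.of_le _
    have hup : Tendsto (stoneCechUnit : X → StoneCech X) 𝒰 (𝓝 p) :=
      (tendsto_comap.mono_left h𝒰)
    -- coordinates converge
    have hcoord : ∀ i, ∃ r : ℝ, Tendsto (fun x => e x i) 𝒰 (𝓝 r) := by
      intro i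
      have hpos : 0 < (G i p : ℝ) := lt_of_le_of_ne (G i p).2.1 (Ne.symm (hzero i))
      have h1 : Tendsto (fun x => (g i x : ℝ)) 𝒰 (𝓝 (G i p : ℝ)) := by
        have h2 : Tendsto (fun x => ((G i (stoneCechUnit x)) : ℝ)) 𝒰 (𝓝 (G i p : ℝ)) :=
          ((continuous_subtype_val.comp (hG i)).tendsto p).comp hup
        simpa only [hGu] using h2
      have h3 : ∀ᶠ x in (𝒰 : Filter X), (G i p : ℝ) / 2 < g i x :=
        h1.eventually_const_lt (by linarith)
      have h4 : ∀ᶠ x in (𝒰 : Filter X), e x i ∈ Icc (-(2 / (G i p : ℝ))) (2 / (G i p : ℝ)) := by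
        filter_upwards [h3] with x hx
        have hx' : (G i p : ℝ) / 2 < 1 / (1 + |e x i|) := hx
        rw [lt_div_iff₀ (by positivity)] at hx'
        have h5 : |e x i| ≤ 2 / (G i p : ℝ) := by
          rw [le_div_iff₀ hpos]
          nlinarith [abs_nonneg (e x i)]
        exact abs_le.mp h5
      have hcomp : IsCompact (Icc (-(2 / (G i p : ℝ))) (2 / (G i p : ℝ))) := isCompact_Icc
      obtain ⟨r, -, hr⟩ := hcomp.ultrafilter_le_nhds (𝒰.map fun x => e x i) (by
        rw [le_principal_iff]
        exact h4)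
      exact ⟨r, hr⟩
    choose r hr using hcoord
    have hlim : Tendsto e 𝒰 (𝓝 r) := tendsto_pi_nhds.mpr hr
    have hmem : r ∈ range e := he.isClosed_range.mem_of_tendsto hlim
      (Eventually.of_forall fun x => mem_range_self x)
    obtain ⟨x, rfl⟩ := hmem
    have hx : Tendsto id (𝒰 : Filter X) (𝓝 x) := by
      rw [he.isInducing.tendsto_nhds_iff]
      exact hlim
    have hux : Tendsto (stoneCechUnit : X → StoneCech X) 𝒰 (𝓝 (stoneCechUnit x)) :=
      (continuous_stoneCechUnit.tendsto x).comp hx
    exact hp ⟨x, tendsto_nhds_unique hux hup⟩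

/-- An oscillating bounded function on the positive half line. -/
lemma exists_oscillating (a : ℕ → ℝ) (ha : ∀ n, 0 < a n) (hlim : Tendsto a atTop (𝓝 0)) :
    ∃ (F : ℝ → ℝ) (φ : ℕ → ℕ), StrictMono φ ∧ (∀ t, 0 < t → ContinuousAt F t) ∧
      (∀ t, F t ∈ Icc (0:ℝ) 1) ∧ (∀ k, F (a (φ (2 * k))) = 0) ∧
      (∀ k, F (a (φ (2 * k + 1))) = 1) := by
  obtain ⟨φ, hφ, hanti⟩ : ∃ φ : ℕ → ℕ, StrictMono φ ∧ StrictAnti (fun n => a (φ n)) := by
    have hfreq : ∀ n : ℕ, ∃ m, n < m ∧ a m < a n := by
      intro n
      have h1 : ∀ᶠ m in atTop, a m < a n := hlim.eventually_lt_const (ha n)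
      obtain ⟨m, hm1, hm2⟩ := (h1.and (eventually_gt_atTop n)).exists
      exact ⟨m, hm2, hm1⟩
    choose s hs1 hs2 using hfreq
    let φ : ℕ → ℕ := fun n => Nat.rec 0 (fun _ m => s m) n
    refine ⟨φ, strictMono_nat_of_lt_succ (fun n => hs1 _), strictAnti_nat_of_succ_lt (fun n => ?_)⟩
    exact hs2 (φ n)
  have hlim' : Tendsto (fun n => a (φ n)) atTop (𝓝 0) := hlim.comp hφ.tendsto_atTop
  let E0 : Set ℝ := insert 0 (range fun k => a (φ (2 * k)))
  let E1 : Set ℝ := insert 0 (range fun k => a (φ (2 * k + 1)))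
  have hE0 : IsClosed E0 := by
    have : Tendsto (fun k : ℕ => a (φ (2 * k))) atTop (𝓝 0) :=
      hlim'.comp (tendsto_atTop_mono (fun k => by simp only [id]; omega) tendsto_id)
    exact this.isCompact_insert_range.isClosed
  have hE1 : IsClosed E1 := by
    have : Tendsto (fun k : ℕ => a (φ (2 * k + 1))) atTop (𝓝 0) :=
      hlim'.comp (tendsto_atTop_mono (fun k => by simp only [id]; omega) tendsto_id)
    exact this.isCompact_insert_range.isClosed
  have hdisj : ∀ t, 0 < t → t ∈ E0 → t ∈ E1 → False := by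
    intro t ht h0 h1
    rcases h0 with h0 | ⟨k, hk⟩
    · exact ht.ne' h0
    rcases h1 with h1 | ⟨l, hl⟩
    · exact ht.ne' h1
    have := hanti.injective (hk.trans hl.symm)
    omega
  have hpos : ∀ t, 0 < t → 0 < Metric.infDist t E0 + Metric.infDist t E1 := by
    intro t ht
    by_contra hcon
    have h0 := Metric.infDist_nonneg (x := t) (s := E0)
    have h1 := Metric.infDist_nonneg (x := t) (s := E1)
    have h0' : Metric.infDist t E0 = 0 := by linarith
    have h1' : Metric.infDist t E1 = 0 := by linarith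
    exact hdisj t ht
      ((hE0.mem_iff_infDist_zero (insert_nonempty _ _)).mpr h0')
      ((hE1.mem_iff_infDist_zero (insert_nonempty _ _)).mpr h1')
  refine ⟨fun t => Metric.infDist t E0 / (Metric.infDist t E0 + Metric.infDist t E1), φ, hφ,
    ?_, ?_, ?_, ?_⟩
  · intro t ht
    have c0 := Metric.continuous_infDist_pt E0
    have c1 := Metric.continuous_infDist_pt E1
    exact (c0.continuousAt).div (c0.add c1).continuousAt (hpos t ht).ne'
  · intro t
    have h0 := Metric.infDist_nonneg (x := t) (s := E0)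
    have h1 := Metric.infDist_nonneg (x := t) (s := E1)
    constructor
    · positivity
    · exact div_le_one_of_le₀ (by linarith) (by linarith)
  · intro k
    have : Metric.infDist (a (φ (2 * k))) E0 = 0 :=
      Metric.infDist_zero_of_mem (mem_insert_of_mem _ (mem_range_self k))
    simp [this]
  · intro k
    have h1 : Metric.infDist (a (φ (2 * k + 1))) E1 = 0 :=
      Metric.infDist_zero_of_mem (mem_insert_of_mem _ (mem_range_self k))
    have h2 := hpos _ (ha (φ (2 * k + 1)))
    simp only [h1, add_zero] at h2 ⊢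
    exact div_self h2.ne'

/-- If a continuous `G ≥ 0` on `βX` is positive on `X`, then a sequence of points where `G` is
positive but tends to zero cannot converge. -/
lemma no_limit_of_pos (G : StoneCech X → ℝ) (hG : Continuous G)
    (hGX : ∀ x : X, 0 < G (stoneCechUnit x)) (x : ℕ → StoneCech X) (hx : ∀ n, 0 < G (x n))
    (p : StoneCech X) (hp : G p = 0) : ¬ Tendsto x atTop (𝓝 p) := by
  intro hlim
  have hGlim : Tendsto (fun n => G (x n)) atTop (𝓝 0) := by
    rw [← hp]
    exact (hG.tendsto p).comp hlim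
  obtain ⟨F, φ, hφ, hFc, hF01, hF0, hF1⟩ := exists_oscillating (fun n => G (x n)) hx hGlim
  let f : X → Icc (0:ℝ) 1 := fun y => ⟨F (G (stoneCechUnit y)), hF01 _⟩
  have hf : Continuous f := by
    apply Continuous.subtype_mk
    rw [continuous_iff_continuousAt]
    intro y
    have h1 : ContinuousAt (fun y : X => G (stoneCechUnit y)) y :=
      (hG.comp continuous_stoneCechUnit).continuousAt
    exact ContinuousAt.comp (f := fun y : X => G (stoneCechUnit y)) (hFc _ (hGX y)) h1
  let f' : StoneCech X → Icc (0:ℝ) 1 := stoneCechExtend hf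
  have hf' : Continuous f' := continuous_stoneCechExtend hf
  have hval : ∀ q, 0 < G q → (f' q : ℝ) = F (G q) := by
    intro q hq
    have hne : (comap (stoneCechUnit : X → StoneCech X) (𝓝 q)).NeBot :=
      comap_unit_neBot q
    have h1 : Tendsto (fun y : X => (f' (stoneCechUnit y) : ℝ))
        (comap (stoneCechUnit : X → StoneCech X) (𝓝 q)) (𝓝 (f' q : ℝ)) :=
      ((continuous_subtype_val.comp hf').tendsto q).comp tendsto_comap
    have h2 : Tendsto (fun y : X => F (G (stoneCechUnit y)))
        (comap (stoneCechUnit : X → StoneCech X) (𝓝 q)) (𝓝 (F (G q))) := by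
      have h3 : ContinuousAt (fun z => F (G z)) q :=
        ContinuousAt.comp (f := G) (hFc _ hq) hG.continuousAt
      exact h3.tendsto.comp tendsto_comap
    have h4 : (fun y : X => (f' (stoneCechUnit y) : ℝ)) = fun y : X => F (G (stoneCechUnit y)) := by
      funext y
      change ((stoneCechExtend hf (stoneCechUnit y) : Icc (0:ℝ) 1) : ℝ) = _
      rw [stoneCechExtend_stoneCechUnit]
    rw [h4] at h1
    exact tendsto_nhds_unique h1 h2
  have hlimφ : Tendsto (fun n => (f' (x (φ n)) : ℝ)) atTop (𝓝 (f' p : ℝ)) :=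
    ((continuous_subtype_val.comp hf').tendsto p).comp (hlim.comp hφ.tendsto_atTop)
  have hev : Tendsto (fun k : ℕ => (f' (x (φ (2 * k))) : ℝ)) atTop (𝓝 (f' p : ℝ)) :=
    hlimφ.comp (tendsto_atTop_mono (fun k => by simp only [id]; omega) tendsto_id)
  have hodd : Tendsto (fun k : ℕ => (f' (x (φ (2 * k + 1))) : ℝ)) atTop (𝓝 (f' p : ℝ)) :=
    hlimφ.comp (tendsto_atTop_mono (fun k => by simp only [id]; omega) tendsto_id)
  have e0 : (f' p : ℝ) = 0 := by
    have : (fun k : ℕ => (f' (x (φ (2 * k))) : ℝ)) = fun _ => (0:ℝ) := by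
      funext k
      rw [hval _ (hx _), hF0]
    rw [this] at hev
    exact tendsto_nhds_unique hev tendsto_const_nhds
  have e1 : (f' p : ℝ) = 1 := by
    have : (fun k : ℕ => (f' (x (φ (2 * k + 1))) : ℝ)) = fun _ => (1:ℝ) := by
      funext k
      rw [hval _ (hx _), hF1]
    rw [this] at hodd
    exact tendsto_nhds_unique hodd tendsto_const_nhds
  rw [e0] at e1
  exact zero_ne_one e1

/-- Points of the remainder of a realcompact space are not limits of sequences of other points
of `βX`. -/
lemma not_tendsto_remainder (hX : IsRealcompact.{u, v} X) (p : StoneCech X)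
    (hp : p ∉ range (stoneCechUnit : X → StoneCech X)) (x : ℕ → StoneCech X)
    (hxp : ∀ n, x n ≠ p) : ¬ Tendsto x atTop (𝓝 p) := by
  obtain ⟨h, hh, hh0, hhp, hhX⟩ := exists_pos_function hX p hp
  have hsep : ∀ n, ∃ g : C(StoneCech X, ℝ), EqOn g 0 {p} ∧ EqOn g 1 {x n} ∧
      ∀ q, g q ∈ Icc (0:ℝ) 1 := by
    intro n
    apply exists_continuous_zero_one_of_isClosed isClosed_singleton isClosed_singleton
    rw [disjoint_singleton]
    exact (hxp n).symm
  choose g hg0 hg1 hg01 using hsep
  have hsummable : Summable (fun n : ℕ => (1/2 : ℝ)^n) := summable_geometric_two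
  have hbound : ∀ n q, ‖(1/2 : ℝ)^n * g n q‖ ≤ (1/2 : ℝ)^n := by
    intro n q
    rw [Real.norm_eq_abs, abs_of_nonneg (mul_nonneg (by positivity) (hg01 n q).1)]
    have := (hg01 n q).2
    have h2 : (0:ℝ) < (1/2)^n := by positivity
    nlinarith
  have hsumq : ∀ q, Summable (fun n : ℕ => (1/2 : ℝ)^n * g n q) := fun q =>
    Summable.of_norm_bounded hsummable (fun n => hbound n q)
  let G : StoneCech X → ℝ := fun q => h q + ∑' n : ℕ, (1/2 : ℝ)^n * g n q
  have hGcont : Continuous G := by
    apply hh.add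
    apply continuous_tsum (fun n => ?_) hsummable hbound
    exact continuous_const.mul (g n).continuous
  have hnonneg : ∀ q, 0 ≤ ∑' n : ℕ, (1/2 : ℝ)^n * g n q := fun q =>
    tsum_nonneg (fun n => mul_nonneg (by positivity) (hg01 n q).1)
  refine no_limit_of_pos G hGcont ?_ x ?_ p ?_
  · intro y
    have := hhX y
    have := hnonneg (stoneCechUnit y)
    simp only [G]
    linarith
  · intro n
    have h1 : 0 < (1/2 : ℝ)^n * g n (x n) := by
      have : g n (x n) = 1 := by simpa using hg1 n (mem_singleton (x n))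
      rw [this]
      positivity
    have h2 : (1/2 : ℝ)^n * g n (x n) ≤ ∑' m : ℕ, (1/2 : ℝ)^m * g m (x n) :=
      (hsumq (x n)).le_tsum n (fun m _ => mul_nonneg (by positivity) (hg01 m (x n)).1)
    have := hh0 (x n)
    simp only [G]
    linarith
  · have h1 : ∀ n : ℕ, (1/2 : ℝ)^n * g n p = 0 := by
      intro n
      have : g n p = 0 := by simpa using hg0 n (mem_singleton p)
      rw [this, mul_zero]
    simp only [G, h1]
    rw [hhp]
    simp

/-- The remainder of a realcompact space has no isolated points. -/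
lemma not_isolated (hX : IsRealcompact.{u, v} X) (p : Remainder X) :
    ¬ IsOpen ({p} : Set (Remainder X)) := by
  intro hopen
  obtain ⟨V, hV, hVp⟩ := isOpen_induced_iff.mp hopen
  have hpV : (p : StoneCech X) ∈ V := by
    have : p ∈ (Subtype.val ⁻¹' V : Set (Remainder X)) := by rw [hVp]; exact mem_singleton p
    exact this
  obtain ⟨h, hh, hh0, hhp, hhX⟩ := exists_pos_function hX p.1 p.2
  obtain ⟨g, hg0, hg1, hg01⟩ : ∃ g : C(StoneCech X, ℝ), EqOn g 0 {(p : StoneCech X)} ∧
      EqOn g 1 Vᶜ ∧ ∀ q, g q ∈ Icc (0:ℝ) 1 := by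
    apply exists_continuous_zero_one_of_isClosed isClosed_singleton hV.isClosed_compl
    rw [disjoint_singleton_left]
    exact fun hn => hn hpV
  let G : StoneCech X → ℝ := fun q => h q + g q
  have hG : Continuous G := hh.add g.continuous
  have hGp : G p = 0 := by
    have : g p = 0 := by simpa using hg0 (mem_singleton (p : StoneCech X))
    simp only [G]
    rw [hhp, this, add_zero]
  have hGX : ∀ y : X, 0 < G (stoneCechUnit y) := by
    intro y
    have h1 := hhX y
    have h2 := (hg01 (stoneCechUnit y)).1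
    simp only [G]
    linarith
  have hGzero : ∀ q, G q = 0 → q = p := by
    intro q hq
    have h1 := hh0 q
    have h2 := (hg01 q).1
    simp only [G] at hq
    have h3 : h q = 0 := by linarith
    have h4 : g q = 0 := by linarith
    have hqV : q ∈ V := by
      by_contra hcon
      have : g q = 1 := by simpa using hg1 hcon
      linarith
    have hqX : q ∉ range (stoneCechUnit : X → StoneCech X) := by
      rintro ⟨y, rfl⟩
      have := hhX y
      linarith
    have : (⟨q, hqX⟩ : Remainder X) ∈ (Subtype.val ⁻¹' V : Set (Remainder X)) := hqV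
    rw [hVp] at this
    exact congrArg Subtype.val (mem_singleton_iff.mp this)
  -- a sequence in `X` converging to `p`
  have hex : ∀ n : ℕ, ∃ y : X, G (stoneCechUnit y) < 1 / ((n:ℝ) + 1) := by
    intro n
    have hopen : IsOpen {q : StoneCech X | G q < 1 / ((n:ℝ) + 1)} := isOpen_lt hG continuous_const
    have hne : {q : StoneCech X | G q < 1 / ((n:ℝ) + 1)}.Nonempty :=
      ⟨p, by change G p < _; rw [hGp]; positivity⟩
    obtain ⟨y, hy⟩ := (denseRange_stoneCechUnit (α := X)).exists_mem_open hopen hne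
    exact ⟨y, hy⟩
  choose y hy using hex
  have hlim0 : Tendsto (fun n => G (stoneCechUnit (y n))) atTop (𝓝 0) :=
    squeeze_zero (fun n => (hGX (y n)).le) (fun n => (hy n).le) tendsto_one_div_add_atTop_nhds_zero_nat
  have hlim : Tendsto (fun n => (stoneCechUnit (y n) : StoneCech X)) atTop (𝓝 (p : StoneCech X)) := by
    rw [tendsto_iff_ultrafilter]
    intro 𝒰 h𝒰
    obtain ⟨q, hq⟩ : ∃ q, Tendsto (fun n => (stoneCechUnit (y n) : StoneCech X)) 𝒰 (𝓝 q) := by
      obtain ⟨q, -, hq⟩ := (isCompact_univ (X := StoneCech X)).ultrafilter_le_nhds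
        (𝒰.map fun n => (stoneCechUnit (y n) : StoneCech X)) (by simp)
      exact ⟨q, hq⟩
    have h1 : Tendsto (fun n => G (stoneCechUnit (y n))) 𝒰 (𝓝 (G q)) := (hG.tendsto q).comp hq
    have h2 : Tendsto (fun n => G (stoneCechUnit (y n))) 𝒰 (𝓝 0) := hlim0.mono_left h𝒰
    have h3 : q = p := hGzero q (tendsto_nhds_unique h1 h2)
    rw [← h3]
    exact hq
  refine not_tendsto_remainder hX p.1 p.2 _ (fun n hn => ?_) hlim
  exact p.2 ⟨y n, hn⟩

/-- Nonempty open subsets of the remainder of a realcompact space are infinite. -/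
lemma infinite_of_isOpen (hX : IsRealcompact.{u, v} X) (U : Set (Remainder X)) (hU : IsOpen U)
    (hne : U.Nonempty) : U.Infinite := by
  obtain ⟨p, hp⟩ := hne
  have : NeBot (𝓝[≠] p) := by
    rw [neBot_iff]
    intro h
    exact not_isolated hX p ((isOpen_singleton_iff_punctured_nhds p).mpr h)
  exact infinite_of_mem_nhds p (hU.mem_nhds hp)

/-- **Theorem.** If `X` is a Tychonoff, realcompact, non-compact space then the remainder
`βX \ X` is selectively highly divergent. -/
theorem result (X : Type u) [TopologicalSpace X] [T35Space X] (hX : IsRealcompact.{u, v} X)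
    (_hnc : ¬ CompactSpace X) : IsSHD (Remainder X) := by
  classical
  intro U hU hne
  have hinf : ∀ n, (U n).Infinite := fun n => infinite_of_isOpen hX (U n) (hU n) (hne n)
  -- pick pairwise distinct points
  have hpick : ∀ (n : ℕ) (s : Finset (Remainder X)), ∃ z, z ∈ U n ∧ z ∉ s := fun n s =>
    (hinf n).exists_notMem_finset s
  choose pick hpick1 hpick2 using hpick
  let s : ℕ → Finset (Remainder X) := fun n => Nat.rec ∅ (fun m t => insert (pick m t) t) n
  have hs : ∀ n, s (n + 1) = insert (pick n (s n)) (s n) := fun n => rfl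
  have hsmono : Monotone s := monotone_nat_of_le_succ (fun n => by
    rw [hs]; exact Finset.subset_insert _ _)
  let x : ℕ → Remainder X := fun n => pick n (s n)
  have hxs : ∀ n, x n ∈ s (n + 1) := fun n => by rw [hs]; exact Finset.mem_insert_self _ _
  have hinj : Function.Injective x := by
    have hlt : ∀ m n, m < n → x m ≠ x n := by
      intro m n hmn heq
      have h1 : x m ∈ s n := hsmono (Nat.succ_le_of_lt hmn) (hxs m)
      rw [heq] at h1
      exact hpick2 n (s n) h1
    intro m n hmn
    rcases lt_trichotomy m n with h | h | h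
    · exact absurd hmn (hlt m n h)
    · exact h
    · exact absurd hmn.symm (hlt n m h)
  refine ⟨x, fun n => hpick1 n (s n), ?_⟩
  rintro φ hφ ⟨p, hp⟩
  have hinjφ : Function.Injective (fun n => x (φ n)) := hinj.comp hφ.injective
  have hfin : {n | x (φ n) = p}.Finite := by
    apply Set.Subsingleton.finite
    intro a ha b hb
    exact hinjφ (ha.trans hb.symm)
  obtain ⟨N, hN⟩ := hfin.bddAbove
  have hlim : Tendsto (fun n => ((x (φ (n + (N + 1))) : Remainder X) : StoneCech X)) atTop
      (𝓝 (p : StoneCech X)) := by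
    have h1 : Tendsto (fun n => ((x (φ n) : Remainder X) : StoneCech X)) atTop
      (𝓝 (p : StoneCech X)) := (continuous_subtype_val.tendsto p).comp hp
    exact (tendsto_add_atTop_iff_nat (N + 1)).mpr h1
  refine not_tendsto_remainder hX p.1 p.2 _ (fun n hn => ?_) hlim
  have h2 : n + (N + 1) ∈ {n | x (φ n) = p} := Subtype.ext hn
  have := hN h2
  omega

end Pool.Agent.Results.MP_47dce7_gt.RealcompactRemainderSHD
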